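import Pool.Agent.H41.SS.Targets

/-!
# Row NM2 of ss_modules: the parameters of the parts about all of resolution
-/

set_option autoImplicit false

namespace Pool.Agent.H99.SSM

open Finset Pool.Agent.H97.RK Pool.Agent.H97.RL Pool.Agent.H41.SS

theorem exp_two_fifths : Real.exp (2 / 5) ≤ 3 / 2 := by
  have h1 : Real.exp (2 / 5) ^ 5 < (3 / 2 : ℝ) ^ 5 := by
    rw [← Real.exp_nat_mul]
    have h2 : ((5 : ℕ) : ℝ) * (2 / 5) = 1 + 1 := by norm_num
    rw [h2, Real.exp_add]
    have h3 := Real.exp_one_lt_d9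
    have h4 := Real.exp_pos 1
    nlinarith
  exact (lt_of_pow_lt_pow_left₀ 5 (by norm_num) h1).le

theorem six_le_exp_two : (6 : ℝ) ≤ Real.exp 2 := by
  have h2 : (2 : ℝ) = 1 + 1 := by norm_num
  rw [h2, Real.exp_add]
  have h3 := Real.exp_one_gt_d9
  nlinarith

theorem pow_le_exp_fifth {n a : ℕ} (ha : 1 ≤ a) (han : 100 * a ≤ n) :
    (Real.exp 1 * n / a) ^ a ≤ Real.exp (n / 5) := by
  have ha0 : (0 : ℝ) < a := by exact_mod_cast ha
  have han' : 100 * (a : ℝ) ≤ n := by exact_mod_cast han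
  have hn0 : (0 : ℝ) < n := by linarith
  set y : ℝ := Real.sqrt (n / a) with hy
  have hy0 : 0 < y := Real.sqrt_pos.2 (by positivity)
  have hyy : y ^ 2 = n / a := Real.sq_sqrt (by positivity)
  have h1 : Real.exp 1 * n / a ≤ Real.exp (2 * y) := by
    have h2 : y ≤ Real.exp (y - 1) := by
      have := Real.add_one_le_exp (y - 1)
      linarith
    have h3 : y ^ 2 ≤ Real.exp (2 * y - 2) := by
      have h4 : Real.exp (2 * y - 2) = Real.exp (y - 1) ^ 2 := by
        rw [← Real.exp_nat_mul]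
        congr 1
        push_cast
        ring
      rw [h4]
      exact pow_le_pow_left₀ hy0.le h2 2
    have h5 : Real.exp 1 * n / a = Real.exp 1 * y ^ 2 := by
      rw [hyy]
      ring
    rw [h5]
    calc Real.exp 1 * y ^ 2 ≤ Real.exp 1 * Real.exp (2 * y - 2) :=
          mul_le_mul_of_nonneg_left h3 (Real.exp_pos _).le
      _ = Real.exp (1 + (2 * y - 2)) := (Real.exp_add _ _).symm
      _ ≤ Real.exp (2 * y) := Real.exp_le_exp.2 (by linarith)
  have h6 : (Real.exp 1 * n / a) ^ a ≤ Real.exp (2 * y) ^ a :=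
    pow_le_pow_left₀ (by positivity) h1 a
  refine h6.trans ?_
  rw [← Real.exp_nat_mul]
  refine Real.exp_le_exp.2 ?_
  -- `2 a y ≤ n / 5`, as `(a y) ^ 2 = a n ≤ n ^ 2 / 100`
  have h7 : (a * y) ^ 2 ≤ (n / 10 : ℝ) ^ 2 := by
    rw [mul_pow, hyy]
    have h8 : (a : ℝ) ^ 2 * (n / a) = a * n := by
      field_simp
    rw [h8]
    nlinarith
  have h9 : a * y ≤ n / 10 := by
    exact (le_abs_self _).trans (abs_le_of_sq_le_sq h7 (by positivity))
  linarith


theorem three_pow {n : ℕ} (hn : 5 ≤ n) : 2 * (2 ^ n * Real.exp (n / 5)) ≤ (3 : ℝ) ^ n := by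
  have hn' : (5 : ℝ) ≤ n := by exact_mod_cast hn
  have h1 : Real.exp (2 / 5) ^ n ≤ (3 / 2 : ℝ) ^ n :=
    pow_le_pow_left₀ (Real.exp_pos _).le exp_two_fifths n
  rw [← Real.exp_nat_mul] at h1
  have h2 : (n : ℝ) * (2 / 5) = n / 5 + n / 5 := by ring
  rw [h2, Real.exp_add] at h1
  have h3 : (2 : ℝ) ≤ Real.exp (n / 5) := by
    have := Real.add_one_le_exp ((n : ℝ) / 5)
    linarith
  have h4 : (3 : ℝ) ^ n = 2 ^ n * (3 / 2) ^ n := by
    rw [← mul_pow]
    norm_num
  rw [h4]
  have h5 : 2 * Real.exp (n / 5) ≤ (3 / 2 : ℝ) ^ n :=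
    (mul_le_mul_of_nonneg_right h3 (Real.exp_pos _).le).trans h1
  have h6 := mul_le_mul_of_nonneg_left h5 (by positivity : (0 : ℝ) ≤ 2 ^ n)
  linarith

theorem exp_three {n : ℕ} (hn : 8 ≤ n) : Real.exp (-(3 * n)) ≤ 1 / (16 * n) := by
  have hn' : (8 : ℝ) ≤ n := by exact_mod_cast hn
  rw [Real.exp_neg, ← one_div]
  refine one_div_le_one_div_of_le (by positivity) ?_
  have h1 : (3 : ℝ) * n = n + 2 * n := by ring
  rw [h1, Real.exp_add]
  have h2 := Real.add_one_le_exp (n : ℝ)
  have h3 := Real.add_one_le_exp (2 * (n : ℝ))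
  have h4 : (n : ℝ) * 16 ≤ Real.exp n * Real.exp (2 * n) :=
    mul_le_mul (by linarith) (by linarith) (by norm_num) (Real.exp_pos _).le
  linarith

theorem expo {sk L T N : ℝ} (hsk : 1 ≤ sk) (hL : 0 ≤ L) (hT : 0 < T) (_hN : 0 < N)
    (h1 : N ≤ T * sk) (h2 : sk + L ≤ sk ^ 2 * T / N) :
    2 * N + T * (1 + L) - 6 * T / N * (sk ^ 2 * T) ≤ -(3 * N) := by
  have h3 : 6 * T / N * (sk ^ 2 * T) = 6 * T * (sk ^ 2 * T / N) := by ring
  have h4 := mul_le_mul_of_nonneg_left h2 (by linarith : 0 ≤ 6 * T)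
  rw [h3]
  have h5 : T * 1 ≤ T * sk := mul_le_mul_of_nonneg_left hsk hT.le
  have h6 : 0 ≤ T * L := mul_nonneg hT.le hL
  nlinarith

theorem pf_NM2 (hCHO : T_CHO) : T_NM2 := by
  obtain ⟨hC1, hC2⟩ := hCHO
  refine ⟨10000, by norm_num, fun k n m hk hn hK => ?_⟩
  push_cast at hK
  have hk' : (10000 : ℝ) ≤ k := by exact_mod_cast hk
  have hn' : 10000 * (k : ℝ) ≤ n := by exact_mod_cast hn
  have hk0 : (0 : ℝ) < k := by linarith
  have hn0 : (0 : ℝ) < n := by linarith
  set sk : ℝ := Real.sqrt k with hskd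
  have hsk : sk ^ 2 = k := Real.sq_sqrt hk0.le
  have hsk1 : 100 ≤ sk := Real.le_sqrt_of_sq_le (by linarith)
  have hsk0 : 0 < sk := by linarith
  set Δ : ℝ := (m : ℝ) / (2 ^ k * n) with hΔ
  have hΔ0 : 0 ≤ Δ := by positivity
  set L : ℝ := lg n k m with hLd
  have hL : Real.exp L = k * (1 + Δ) := by
    rw [hLd]
    unfold lg
    exact Real.exp_log (by positivity)
  have hL0 : 0 ≤ L := by
    rw [← Real.one_le_exp_iff, hL]
    nlinarith
  set μ : ℝ := 1 / sk + L / k with hμ
  have hkμ : k * μ = sk + L := by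
    rw [hμ, mul_add, mul_div_cancel₀ _ hk0.ne', ← hsk]
    field_simp
  have hμ0 : 0 < μ := by positivity
  have hμ1 : 10000 * μ ≤ 1 := hK
  have hμn : (n : ℝ) ≤ μ * n * sk := by
    have h1 : 1 ≤ μ * sk := by
      rw [hμ, add_mul, one_div, inv_mul_cancel₀ hsk0.ne']
      have : 0 ≤ L / k * sk := by positivity
      linarith
    nlinarith
  have hμn1 : 10000 ≤ μ * n := by
    have h1 : 10000 * sk ^ 2 ≤ μ * n * sk := by
      rw [hsk]
      linarith
    have h2 : (10000 * sk) * sk ≤ (μ * n) * sk := by nlinarith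
    have h3 := le_of_mul_le_mul_right h2 hsk0
    linarith
  set t : ℕ := ⌈μ * n⌉₊ with htd
  have ht1 : μ * n ≤ t := Nat.le_ceil _
  have ht2 : (t : ℝ) ≤ 2 * (μ * n) := by
    have := Nat.ceil_lt_add_one (by positivity : 0 ≤ μ * n)
    linarith
  have ht3 : 5000 * (t : ℝ) ≤ n := by nlinarith
  have ht4 : 5000 * t ≤ n := by exact_mod_cast ht3
  have ht5 : 1 ≤ t := by
    have h1 : (1 : ℝ) ≤ t := by linarith
    exact_mod_cast h1
  have htr : (0 : ℝ) < t := by exact_mod_cast ht5
  have htsk : (n : ℝ) ≤ t * sk := hμn.trans (mul_le_mul_of_nonneg_right ht1 hsk0.le)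
  have hlogk : 1 ≤ Real.log k := by
    rw [Real.le_log_iff_exp_le hk0]
    have := Real.exp_one_lt_d9
    linarith
  -- volumes of balls
  have hball : ∀ c : ℕ, 4 ≤ c → c ≤ 20 → (bl n (c * t) : ℝ) ≤ Real.exp (c * t * Real.log k) := by
    intro c hc1 hc2
    have h1 := hC2 n (c * t) (by nlinarith) (by nlinarith)
    refine h1.trans ?_
    have hc1' : (4 : ℝ) ≤ c := by exact_mod_cast hc1
    have hct : (0 : ℝ) < ((c * t : ℕ) : ℝ) := by
      push_cast
      positivity
    have h2 : Real.exp 1 * n / ((c * t : ℕ) : ℝ) ≤ k := by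
      rw [div_le_iff₀ hct]
      push_cast
      have h3 := Real.exp_one_lt_d9
      have h4 : Real.exp 1 * n ≤ 4 * (t * sk) :=
        mul_le_mul (by linarith) htsk hn0.le (by norm_num)
      have h5 : (t : ℝ) * sk ≤ t * k := by
        refine mul_le_mul_of_nonneg_left ?_ htr.le
        rw [← hsk]
        nlinarith
      have h6 : 4 * ((t : ℝ) * k) ≤ c * (t * k) :=
        mul_le_mul_of_nonneg_right hc1' (by positivity)
      linarith
    have h7 : (Real.exp 1 * n / ((c * t : ℕ) : ℝ)) ^ (c * t) ≤ (k : ℝ) ^ (c * t) :=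
      pow_le_pow_left₀ (by positivity) h2 _
    refine h7.trans (le_of_eq ?_)
    have h8 : Real.exp (c * t * Real.log k) = Real.exp (Real.log k) ^ (c * t) := by
      rw [← Real.exp_nat_mul]
      push_cast
      rfl
    rw [h8, Real.exp_log hk0]
  refine ⟨t, 18 * t, 12 * t, ht5, by omega, le_rfl, by omega, by omega, ?_, ?_, ?_, ?_⟩
  · -- (P)
    set x : ℝ := 6 * t / n with hx
    have hx0 : 0 ≤ x := by positivity
    have hb1 : ((n : ℝ) - ((18 * t : ℕ) : ℝ) + ((12 * t : ℕ) : ℝ)) / (2 * n) = (1 - x) / 2 := by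
      rw [hx]
      push_cast
      field_simp
      ring
    have hx1 : x ≤ 1 := by
      rw [hx, div_le_one hn0]
      linarith
    have hb2 : (1 - x) / 2 ≤ Real.exp (-x) / 2 := by
      have := Real.add_one_le_exp (-x)
      linarith
    have hb3 : ((1 - x) / 2) ^ (k * t) ≤ (Real.exp (-x) / 2) ^ (k * t) :=
      pow_le_pow_left₀ (by linarith) hb2 _
    have hb4 : (Real.exp (-x) / 2) ^ (k * t) =
        Real.exp (-(x * (sk ^ 2 * t))) * ((1 / 2 : ℝ) ^ k) ^ t := by
      rw [div_eq_mul_one_div, mul_pow, ← Real.exp_nat_mul, pow_mul, hsk]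
      congr 2
      push_cast
      ring
    have hc1 := hC1 m t ht5
    have hc2 : (m.choose t : ℝ) * ((1 / 2 : ℝ) ^ k) ^ t ≤ Real.exp (t * (1 + L)) := by
      have h1 : (m.choose t : ℝ) * ((1 / 2 : ℝ) ^ k) ^ t ≤
          (Real.exp 1 * m / t) ^ t * ((1 / 2 : ℝ) ^ k) ^ t :=
        mul_le_mul_of_nonneg_right hc1 (by positivity)
      refine h1.trans ?_
      rw [← mul_pow, Real.exp_nat_mul]
      refine pow_le_pow_left₀ (by positivity) ?_ _
      rw [Real.exp_add, hL]
      have h2 : (m : ℝ) * (1 / 2) ^ k = Δ * n := by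
        rw [hΔ, one_div, inv_pow]
        field_simp
      have h3 : Real.exp 1 * m / t * (1 / 2) ^ k = Real.exp 1 * (Δ * n / t) := by
        rw [← h2]
        ring
      rw [h3]
      refine mul_le_mul_of_nonneg_left ?_ (Real.exp_pos _).le
      rw [div_le_iff₀ htr]
      have h4 : (n : ℝ) ≤ k * t := by
        have h5 : (t : ℝ) * sk ≤ t * k := by
          refine mul_le_mul_of_nonneg_left ?_ htr.le
          rw [← hsk]
          nlinarith
        linarith
      have h6 : Δ * n ≤ Δ * (k * t) := mul_le_mul_of_nonneg_left h4 hΔ0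
      have h7 : 0 < k * (t : ℝ) := by positivity
      nlinarith
    have h6 : (6 : ℝ) ^ n ≤ Real.exp (2 * n) := by
      have h1 : (6 : ℝ) ^ n ≤ Real.exp 2 ^ n := pow_le_pow_left₀ (by norm_num) six_le_exp_two _
      rw [← Real.exp_nat_mul] at h1
      refine h1.trans (le_of_eq ?_)
      congr 1
      ring
    rw [hb1]
    have hex := expo (sk := sk) (L := L) (T := t) (N := n) (by linarith) hL0 htr hn0 htsk (by
      rw [le_div_iff₀ hn0, hsk, ← hkμ]
      have := mul_le_mul_of_nonneg_left ht1 hk0.le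
      linarith)
    have hfin : (6 : ℝ) ^ n * (m.choose t) * ((1 - x) / 2) ^ (k * t) ≤
        Real.exp (2 * n + t * (1 + L) - x * (sk ^ 2 * t)) := by
      have e1 : Real.exp (2 * n + t * (1 + L) - x * (sk ^ 2 * t)) = Real.exp (2 * n) *
          (Real.exp (t * (1 + L)) * Real.exp (-(x * (sk ^ 2 * t)))) := by
        rw [← Real.exp_add, ← Real.exp_add]
        congr 1
        ring
      rw [e1, mul_assoc]
      refine mul_le_mul h6 ?_ (by
        have : 0 ≤ (1 - x) / 2 := by linarith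
        positivity) (Real.exp_pos _).le
      have h1 : (m.choose t : ℝ) * ((1 - x) / 2) ^ (k * t) ≤
          m.choose t * (Real.exp (-(x * (sk ^ 2 * t))) * ((1 / 2 : ℝ) ^ k) ^ t) := by
        rw [← hb4]
        exact mul_le_mul_of_nonneg_left hb3 (Nat.cast_nonneg _)
      refine h1.trans ?_
      have h2 := mul_le_mul_of_nonneg_right hc2 (Real.exp_pos (-(x * (sk ^ 2 * t)))).le
      linarith
    refine hfin.trans (le_trans (Real.exp_le_exp.2 hex) (exp_three ?_))
    omega
  · -- the size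
    push_cast
    nlinarith
  · -- (G)
    have h1 := hball 20 (by norm_num) (by norm_num)
    have h2 := hball 4 (by norm_num) (by norm_num)
    have e0 : 18 * t + 2 * t = 20 * t := by ring
    rw [e0]
    have h3 : 2 * (bl n (20 * t) : ℝ) * bl n (4 * t) ≤
        2 * (Real.exp (20 * t * Real.log k) * Real.exp (4 * t * Real.log k)) := by
      have := mul_le_mul h1 h2 (Nat.cast_nonneg _) (Real.exp_pos _).le
      push_cast at this
      linarith
    refine h3.trans ?_
    rw [← Real.exp_add, Real.rpow_def_of_pos (by norm_num : (0 : ℝ) < 2)]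
    have h4 : (2 : ℝ) ≤ Real.exp 1 := by
      have := Real.exp_one_gt_d9
      linarith
    have h5 : 2 * Real.exp (20 * t * Real.log k + 4 * t * Real.log k) ≤
        Real.exp (1 + (20 * t * Real.log k + 4 * t * Real.log k)) := by
      rw [Real.exp_add 1]
      exact mul_le_mul_of_nonneg_right h4 (Real.exp_pos _).le
    refine h5.trans (Real.exp_le_exp.2 ?_)
    have hl2 := Real.log_two_gt_d9
    push_cast
    set v : ℝ := Real.log k with hv
    have h6 : 1 ≤ μ * n * v := by nlinarith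
    have h7 : (t : ℝ) * v ≤ 2 * (μ * n * v) := by
      have := mul_le_mul_of_nonneg_right ht2 (by linarith : 0 ≤ v)
      linarith
    have h8 : 0.69 * (10000 * (μ * n * v)) ≤ Real.log 2 * (10000 * (μ * n * v)) :=
      mul_le_mul_of_nonneg_right (by linarith) (by linarith)
    have e1 : Real.log 2 * (10000 * v * μ * n) = Real.log 2 * (10000 * (μ * n * v)) := by ring
    rw [e1]
    linarith
  · -- (B)
    have e0 : 12 * t + 18 * t = 30 * t := by ring
    rw [e0]
    have h1 := hC2 n (30 * t) (by omega) (by omega)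
    have h2 := pow_le_exp_fifth (n := n) (a := 30 * t) (by omega) (by omega)
    have h3 := three_pow (n := n) (by omega)
    have h4 : 2 * ((2 : ℝ) ^ n * bl n (30 * t)) ≤ 3 ^ n := by
      have h5 := mul_le_mul_of_nonneg_left (h1.trans h2) (by positivity : (0 : ℝ) ≤ 2 ^ n)
      linarith
    exact_mod_cast h4

end Pool.Agent.H99.SSM
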