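import Pool.Agent.H41.SS.Targets

/-!
# Row SAF of ss_modules: few clauses can be satisfied together
-/

set_option autoImplicit false

namespace Pool.Agent.H99.SSM

open Finset Pool.Agent.H97.RK Pool.Agent.H97.RL Pool.Agent.H41.SS

theorem pf_SAF (hHAL : T_HAL) : T_SAF := by
  classical
  intro n k m F D b y A W J hS S hD
  set S1 := S.filter (fun c => Al F y (A ∪ W) c) with hS1
  have hno : ∀ c ∈ S, c ∉ S1 → ∃ i, (F c i).1 ∈ A ∪ W ∧ y (F c i).1 = (F c i).2 := by
    intro c hc hc1
    by_contra h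
    refine hc1 (mem_filter.2 ⟨hc, fun i hi he => h ⟨i, hi, he⟩⟩)
  rcases S1.eq_empty_or_nonempty with h0 | ⟨c, hc⟩
  · refine ⟨y, fun u _ => rfl, fun c hc => ?_⟩
    obtain ⟨i, _, h2⟩ := hno c hc (by rw [h0]; exact Finset.notMem_empty c)
    exact ⟨i, mem_univ _, h2⟩
  · have hcard : S1.card ≤ D := (Finset.card_filter_le _ _).trans hD
    have hal : ∀ c ∈ S1, Al F y (A ∪ W) c := fun c hc => (mem_filter.1 hc).2
    have hv : ∃ v : Fin n, True := by
      rcases Nat.eq_zero_or_pos k with hk | hk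
      · exfalso
        have h1 := hS.inv S1 hcard hal
        have h2 : VS F S1 = ∅ := by
          subst hk
          unfold VS vF
          rw [Finset.eq_empty_iff_forall_notMem]
          intro v hv
          rw [mem_biUnion] at hv
          obtain ⟨c, _, h3⟩ := hv
          rw [mem_image] at h3
          obtain ⟨i, _⟩ := h3
          exact i.elim0
        rw [h2, Finset.empty_sdiff, Finset.card_empty] at h1
        have h3 : 0 < S1.card := Finset.card_pos.2 ⟨c, hc⟩
        omega
      · exact ⟨(F c ⟨0, hk⟩).1, trivial⟩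
    obtain ⟨v, _⟩ := hv
    obtain ⟨z, hz1, hz2⟩ := hHAL n k m F D b y A W J hS v S1 hcard hal
    refine ⟨z, fun u hu => hz1 u (mem_insert_of_mem hu), fun c hc => ?_⟩
    by_cases h1 : c ∈ S1
    · exact hz2 c h1
    · obtain ⟨i, h2, h3⟩ := hno c hc h1
      exact ⟨i, mem_univ _, by rw [hz1 _ (mem_insert_of_mem h2)]; exact h3⟩

end Pool.Agent.H99.SSM
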